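import Pool.Agent.Run7.h232.DC.Main

/-!
# DOMINATING SET is solvable in polynomial time on balanced chordal graphs

The closed neighbourhoods of a balanced chordal graph form a balanced hypergraph (starting file
`Pool.Agent.Y600.DC.NB`).  For such a graph the domination number is the value of the fractional
covering problem (Berge's good colourings), which a greedy algorithm with multiplicative weights
computes with an error so small that it determines the integer.
-/

set_option autoImplicit false

namespace Pool.Agent.Results.MP_1e64e3_lc.BalancedChordalPolynomial

open Pool.Agent.NPC Pool.Agent.NPC.R671 Pool.Agent.Y600.DC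

/-- There is a polynomial-time algorithm which, for every balanced chordal graph `G` and every `k`,
decides whether `G` has a dominating set with at most `k` vertices. -/
theorem result : ∃ A : List Bool → List Bool, PolyTime A ∧
    ∀ (n : ℕ) (G : SimpleGraph (Fin n)) (k : ℕ), Chordal G → Balanced G →
      (A (bits (adjMatrix G, k)) = [true] ↔
        ∃ D : Finset (Fin n), D.card ≤ k ∧ Dominating G D) := by
  obtain ⟨A, hA, h0, h⟩ := Pool.Agent.Run7.h232.DC.algo
  refine ⟨A, hA, fun n G k hc hb => ?_⟩
  rcases Nat.eq_zero_or_pos n with hn | hn
  · subst hn
    exact ⟨fun _ => ⟨∅, by simp, fun v => v.elim0⟩, fun _ => h0 G k⟩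
  · obtain ⟨pick, hp, hiff⟩ := h n G k hn
    rw [hiff]
    exact Pool.Agent.Run7.h232.DC.decides hn G (nb (Fin n) G hc hb) pick hp k

end Pool.Agent.Results.MP_1e64e3_lc.BalancedChordalPolynomial
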